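import Pool.Agent.H653Z.HB.Stm

set_option autoImplicit false
open MeasureTheory Filter Topology

namespace Pool.Agent.H653Z.HB
namespace H724

noncomputable def pk (ψ : C(T, ℂ)) : C(G, ℂ) := ψ.comp ⟨fun x => x 0, continuous_apply 0⟩

@[simp] theorem pk_apply (ψ : C(T, ℂ)) (x : G) : pk ψ x = ψ (x 0) := rfl

theorem pk_mem_An {ψ : C(T, ℂ)}
    (h : ψ ∈ Submodule.span ℂ {f : C(T, ℂ) | ∃ κ : ℤ, 0 ≤ κ ∧ f = fourier κ}) : pk ψ ∈ An := by
  induction h using Submodule.span_induction with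
  | mem f hf => obtain ⟨κ, hκ, rfl⟩ := hf; exact co_mem_An 0 κ hκ
  | zero => exact An.zero_mem
  | add a b _ _ ha hb => exact An.add_mem ha hb
  | smul c a _ ha => exact An.smul_mem c ha

noncomputable def kk {Ω : Type} (ψ : C(T, ℂ)) (i : ℕ) (κ : ℤ) (K : Ω → C(G, ℂ)) (a : Ω) :
    C(G, ℂ) := pk ψ * co (2 * (i + 1)) κ * K a

theorem kk_apply {Ω : Type} (ψ : C(T, ℂ)) (i : ℕ) (κ : ℤ) (K : Ω → C(G, ℂ)) (a : Ω) (x : G) :
    kk ψ i κ K a x = ψ (x 0) * fourier κ (x (2 * (i + 1))) * K a x := rfl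

theorem norm_kk {Ω : Type} (ψ : C(T, ℂ)) (i : ℕ) (κ : ℤ) (K : Ω → C(G, ℂ)) (a : Ω) (x : G) :
    ‖kk ψ i κ K a x‖ = ‖K a x‖ * ‖ψ (x 0)‖ := by
  rw [kk_apply, norm_mul, norm_mul, norm_fourier]; ring

theorem int_norm_kk {Ω : Type} (ψ : C(T, ℂ)) (i : ℕ) (κ : ℤ) (K : Ω → C(G, ℂ)) (a : Ω)
    (hi : Inv 0 (K a)) (hK : ∫ x, ‖K a x‖ ∂mu ≤ 2) (hψ : ∫ z, ‖ψ z‖ ∂haar ≤ 2) :
    ∫ x, ‖kk ψ i κ K a x‖ ∂mu ≤ 4 := by
  simp only [norm_kk]
  rw [ind (𝕜 := ℝ) 0 (fun x => ‖K a x‖) (K a).continuous.norm (fun x t => by simp only [hi x t])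
    (fun x => x 0) (continuous_apply 0) (single_apply_self 0) (fun t => ‖ψ t‖) ψ.continuous.norm]
  have h1 : 0 ≤ ∫ z, ‖ψ z‖ ∂haar := integral_nonneg fun _ => norm_nonneg _
  calc _ ≤ (2 : ℝ) * 2 := mul_le_mul hK hψ h1 (by norm_num)
    _ = 4 := by norm_num

theorem int_diag {Ω : Type} (σ ψ : C(T, ℂ)) (i : ℕ) (R K : Ω → C(G, ℂ)) (a b : Ω)
    (hR : Inv 0 (R a)) (hK : Inv 0 (K b)) (h : ∫ z, σ z * ψ z ∂haar = 1) :
    ∫ x, kk σ i (-1) R a x * kk ψ i 1 K b x ∂mu = ∫ x, R a x * K b x ∂mu := by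
  have e : ∀ x : G, kk σ i (-1) R a x * kk ψ i 1 K b x =
      (R a x * K b x) * (σ (x 0) * ψ (x 0)) := by
    intro x
    have h1 : (fourier (-1) (x (2 * (i + 1))) : ℂ) * fourier 1 (x (2 * (i + 1))) = 1 := by
      rw [← fourier_add]; simp
    rw [kk_apply, kk_apply]
    linear_combination (R a x * K b x * σ (x 0) * ψ (x 0)) * h1
  simp only [e]
  rw [ind (𝕜 := ℂ) 0 (fun x => R a x * K b x) ((R a).continuous.mul (K b).continuous)
    (fun x t => by simp only [hR x t, hK x t]) (fun x => x 0) (continuous_apply 0) (single_apply_self 0)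
    (fun t => σ t * ψ t) (σ.continuous.mul ψ.continuous), h, mul_one]

theorem int_off {Ω Ω' : Type} (σ ψ : C(T, ℂ)) {i j : ℕ} (hij : i ≠ j) (R : Ω → C(G, ℂ))
    (K : Ω' → C(G, ℂ)) (a : Ω) (b : Ω') (hR : Inv (2 * (j + 1)) (R a))
    (hK : Inv (2 * (j + 1)) (K b)) :
    ∫ x, kk σ i (-1) R a x * kk ψ j 1 K b x ∂mu = 0 := by
  refine cov_zero _ (2 * (j + 1)) 1 one_ne_zero fun x t => ?_
  rw [kk_apply, kk_apply, kk_apply, kk_apply, hR x t, hK x t, single_apply_self,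
    single_apply_ne (by omega : 2 * (j + 1) ≠ 0),
    single_apply_ne (by omega : 2 * (j + 1) ≠ 2 * (i + 1)), fourier_add_pt]
  ring

theorem anal_synth {Ω Ω' : Type} [Fintype Ω] [Fintype Ω'] (R : Ω → C(G, ℂ)) (K : Ω' → C(G, ℂ))
    (F : L1 Ω') (a : Ω) :
    anal R (synth K F) a = ∑ b, F b * ∫ x, R a x * K b x ∂mu := by
  rw [anal_apply, synth_apply, map_sum, map_sum]
  refine Finset.sum_congr rfl fun b _ => ?_
  rw [map_smul, map_smul, pair_toE, smul_eq_mul]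

theorem near_id {Ω : Type} [Fintype Ω] [DecidableEq Ω] (M : Ω → Ω → ℂ)
    (hM : ∀ b, ∑ a, ‖M a b - if a = b then 1 else 0‖ ≤ 1 / 2) (F F' : L1 Ω)
    (h : ∀ a, F' a = ∑ b, F b * M a b) : ‖F' - F‖ ≤ 1 / 2 * ‖F‖ := by
  rw [norm_L1, norm_L1]
  have e : ∀ a, (F' - F) a = ∑ b, F b * (M a b - if a = b then 1 else 0) := by
    intro a
    simp only [PiLp.sub_apply, h, mul_sub, Finset.sum_sub_distrib, mul_ite, mul_one, mul_zero,
      Finset.sum_ite_eq, Finset.mem_univ, if_true]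
  calc ∑ a, ‖(F' - F) a‖ ≤ ∑ a, ∑ b, ‖F b‖ * ‖M a b - if a = b then 1 else 0‖ := by
        refine Finset.sum_le_sum fun a _ => ?_
        rw [e]
        refine (norm_sum_le _ _).trans (le_of_eq ?_)
        simp only [norm_mul]
    _ = ∑ b, ‖F b‖ * ∑ a, ‖M a b - if a = b then 1 else 0‖ := by
        rw [Finset.sum_comm]; simp only [Finset.mul_sum]
    _ ≤ ∑ b, ‖F b‖ * (1 / 2) :=
        Finset.sum_le_sum fun b _ => mul_le_mul_of_nonneg_left (hM b) (norm_nonneg _)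
    _ = 1 / 2 * ∑ b, ‖F b‖ := by rw [← Finset.sum_mul, mul_comm]

theorem exists_inv {H : Type*} [NormedAddCommGroup H] [NormedSpace ℂ H] [CompleteSpace H]
    (S : H →L[ℂ] H) (hS : ∀ h, ‖S h - h‖ ≤ 1 / 2 * ‖h‖) :
    ∃ U : H →L[ℂ] H, (∀ h, S (U h) = h) ∧ ∀ h, ‖U h‖ ≤ 2 * ‖h‖ := by
  have ht : ‖(1 : H →L[ℂ] H) - S‖ < 1 := by
    refine lt_of_le_of_lt (ContinuousLinearMap.opNorm_le_bound _ (M := 1 / 2) (by norm_num)
      fun h => ?_) (by norm_num)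
    rw [ContinuousLinearMap.sub_apply, ContinuousLinearMap.one_apply, norm_sub_rev]
    exact hS h
  let u := Units.oneSub _ ht
  have hu : (u : H →L[ℂ] H) = S := by simp [u]
  have key : ∀ h, S ((↑u⁻¹ : H →L[ℂ] H) h) = h := by
    intro h
    rw [← hu, ← ContinuousLinearMap.mul_apply, Units.mul_inv, ContinuousLinearMap.one_apply]
  refine ⟨↑u⁻¹, key, fun h => ?_⟩
  have h1 := hS ((↑u⁻¹ : H →L[ℂ] H) h)
  rw [key] at h1
  have h2 := norm_sub_norm_le ((↑u⁻¹ : H →L[ℂ] H) h) h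
  rw [norm_sub_rev] at h2
  linarith

theorem anal_mem (hd : DensS) {Ω : Type} [Fintype Ω] (R : Ω → C(G, ℂ))
    (H : Submodule ℂ (L1 Ω)) (h : ∀ k : ℕ →₀ ℤ, (∀ i, 0 ≤ k i) → anal R (ee k) ∈ H) :
    ∀ f ∈ X, anal R f ∈ H := by
  intro f hf
  have hc : IsClosed ((H.comap (anal R).toLinearMap : Submodule ℂ E) : Set E) :=
    H.closed_of_finiteDimensional.preimage (anal R).continuous
  refine Submodule.topologicalClosure_minimal _ (t := H.comap (anal R).toLinearMap) ?_ hc (hd f hf)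
  rw [Submodule.span_le]
  rintro g ⟨k, hk, rfl⟩
  exact h k hk

theorem sum_pair_le (σ : ℕ → C(T, ℂ))
    (hσ : ∀ (z : T) (s : Finset ℕ), ∑ i ∈ s, ‖σ i z‖ ≤ 1) (z : T) (s : Finset (ℕ × ℕ)) :
    ∑ p ∈ s, ‖σ (Nat.pair p.1 p.2) z‖ ≤ 1 := by
  have := hσ z (s.image fun p => Nat.pair p.1 p.2)
  rwa [Finset.sum_image (fun p _ p' _ h => Prod.ext (Nat.pair_eq_pair.1 h).1
    (Nat.pair_eq_pair.1 h).2)] at this

end H724

open H724 in
theorem iota_of (he : EmbS) (hp : PeakS) (hd : DensS) : IotaS := by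
  choose q0 hq using he
  obtain ⟨σ, ψ, hσ, hψ, hψ2, hσψ⟩ := hp
  refine ⟨q0, fun N d Q hQ => ?_⟩
  choose Tk Rk h1 h2 h3 h4 h5 h6 using fun n => hq (N n) (d n) (Q n + 1) (hQ n)
  have m1 : ∀ n i, ∀ F : HH (Q n + 1) (N n) (d n),
      ((synth (kk (ψ i) i 1 (Tk n))).comp (HH (Q n + 1) (N n) (d n)).subtypeL) F ∈ X := by
    intro n i F
    change synth (kk (ψ i) i 1 (Tk n)) F.1 ∈ X
    rw [synth_apply]
    refine toE_mem_X ?_
    have e : ∑ a, F.1 a • kk (ψ i) i 1 (Tk n) a =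
        pk (ψ i) * co (2 * (i + 1)) 1 * ∑ a, F.1.ofLp a • Tk n a := by
      rw [Finset.mul_sum]
      exact Finset.sum_congr rfl fun a _ => (mul_smul_comm _ _ _).symm
    rw [e]
    exact mul_mem_An (mul_mem_An (pk_mem_An (hψ i)) (co_mem_An _ _ zero_le_one))
      (h2 n _ ((mem_HH _ _ _ _).1 F.2))
  have m2 : ∀ n i, ∀ f : X,
      ((anal (kk (σ i) i (-1) (Rk n))).comp X.subtypeL) f ∈ HH (Q n + 1) (N n) (d n) := by
    intro n i f
    refine anal_mem hd _ _ (fun k hk => ?_) f.1 f.2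
    rw [mem_HH]
    have := h3 n (pk (σ i) * co (2 * (i + 1)) (-1)) (fun m x t => by
      rw [ContinuousMap.mul_apply, ContinuousMap.mul_apply, pk_apply, pk_apply, co_apply,
        co_apply, single_apply_ne (by omega : 2 * m + 1 ≠ 0),
        single_apply_ne (by omega : 2 * m + 1 ≠ 2 * (i + 1))]) k hk
    convert this using 1
    funext a
    exact pair_toE _ _
  let ι0 : ∀ n, ℕ → HH (Q n + 1) (N n) (d n) →L[ℂ] X := fun n i =>
    ContinuousLinearMap.codRestrict _ X (m1 n i)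
  let π0 : ∀ n, ℕ → X →L[ℂ] HH (Q n + 1) (N n) (d n) := fun n i =>
    ContinuousLinearMap.codRestrict _ _ (m2 n i)
  have e0 : ∀ n i m j (F : HH (Q m + 1) (N m) (d m)) a, (π0 n i (ι0 m j F)).1 a =
      ∑ b, F.1 b * ∫ x, kk (σ i) i (-1) (Rk n) a x * kk (ψ j) j 1 (Tk m) b x ∂mu :=
    fun n i m j F a => anal_synth _ _ F.1 a
  have n0 : ∀ n i F, ‖ι0 n i F‖ ≤ 4 * ‖F‖ := fun n i F =>
    norm_synth_le _ 4 (fun a => int_norm_kk _ _ _ _ a (h1 n a 0).1 (h4 n a) (hψ2 i)) F.1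
  have hU : ∀ n i, ∃ U : HH (Q n + 1) (N n) (d n) →L[ℂ] HH (Q n + 1) (N n) (d n),
      (∀ h, ((π0 n i).comp (ι0 n i)) (U h) = h) ∧ ∀ h, ‖U h‖ ≤ 2 * ‖h‖ := by
    intro n i
    have : CompleteSpace (HH (Q n + 1) (N n) (d n)) := FiniteDimensional.complete ℂ _
    refine exists_inv _ fun F => ?_
    refine near_id (fun a b => ∫ x, Rk n a x * Tk n b x ∂mu) (h6 n) F.1 (π0 n i (ι0 n i F)).1
      fun a => ?_
    rw [e0]
    refine Finset.sum_congr rfl fun b _ => ?_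
    rw [int_diag _ _ _ _ _ a b (h1 n a 0).2 (h1 n b 0).1 (hσψ i)]
  choose U hU1 hU2 using hU
  refine ⟨fun n r => (ι0 n (Nat.pair n r)).comp (U n (Nat.pair n r)),
    fun n r => π0 n (Nat.pair n r), fun n r => ?_, fun x s => ?_, fun n r h => hU1 n _ h,
    fun n r m s hne h => ?_⟩
  · refine ContinuousLinearMap.opNorm_le_bound _ (by norm_num) fun h => ?_
    have := n0 n (Nat.pair n r) (U n (Nat.pair n r) h)
    have := hU2 n (Nat.pair n r) h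
    rw [ContinuousLinearMap.comp_apply]
    linarith
  · have e : ∀ p : ℕ × ℕ, ‖π0 p.1 (Nat.pair p.1 p.2) x‖ =
        ∑ a, ‖pair (kk (σ (Nat.pair p.1 p.2)) (Nat.pair p.1 p.2) (-1) (Rk p.1) a) x.1‖ :=
      fun p => norm_L1 (anal (kk (σ (Nat.pair p.1 p.2)) (Nat.pair p.1 p.2) (-1) (Rk p.1)) x.1)
    simp only [e]
    rw [Finset.sum_sigma']
    have := sum_norm_pair_le
      (s.sigma fun p => (Finset.univ : Finset (Fin (d p.1) → Om (Q p.1 + 1) (N p.1))))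
      (fun y => kk (σ (Nat.pair y.1.1 y.1.2)) (Nat.pair y.1.1 y.1.2) (-1) (Rk y.1.1) y.2) 2
      (fun z => by
        rw [Finset.sum_sigma]
        calc _ ≤ ∑ p ∈ s, 2 * ‖σ (Nat.pair p.1 p.2) (z 0)‖ := by
              refine Finset.sum_le_sum fun p _ => ?_
              simp only [norm_kk]
              rw [← Finset.sum_mul]
              exact mul_le_mul_of_nonneg_right (h5 p.1 z) (norm_nonneg _)
          _ ≤ 2 := by
              rw [← Finset.mul_sum]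
              linarith [sum_pair_le σ hσ (z 0) s]) x.1
    have h0 : ‖x.1‖ = ‖x‖ := rfl
    have h00 := norm_nonneg x
    rw [h0] at this
    linarith
  · have hij : Nat.pair n r ≠ Nat.pair m s := fun h =>
      hne (Prod.ext (Nat.pair_eq_pair.1 h).1 (Nat.pair_eq_pair.1 h).2)
    refine Subtype.ext (PiLp.ext fun a => ?_)
    rw [ContinuousLinearMap.comp_apply, e0]
    refine Finset.sum_eq_zero fun b _ => ?_
    rw [int_off _ _ hij _ _ a b (h1 n a _).2 (h1 m b _).1, mul_zero]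

end Pool.Agent.H653Z.HB
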