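import Pool.Agent.H113Z.Dist.Defs

/-! Toolkit lemma `tool : ToolStmt` for the distortion construction. -/

namespace Pool.Agent.H113Z.Dist
open Filter Topology Set

namespace H724

theorem hasDerivAt_D {f : ℝ → ℝ} {x : ℝ} (hf : ContDiffAt ℝ 4 f x) (k : ℕ) (hk : k < 4) :
    HasDerivAt (D k f) (D (k + 1) f x) x := by
  have h1 : DifferentiableAt ℝ (iteratedFDeriv ℝ k f) x :=
    hf.differentiableAt_iteratedFDeriv (by exact_mod_cast hk)
  have h2 : DifferentiableAt ℝ (iteratedDeriv k f) x := by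
    rw [iteratedDeriv_eq_equiv_comp]
    exact (ContinuousMultilinearMap.piFieldEquiv ℝ (Fin k) ℝ).symm.differentiableAt.comp x h1
  have h3 := h2.hasDerivAt
  rw [← iteratedDeriv_succ] at h3
  exact h3

theorem chain4 (f g : ℝ → ℝ) (x : ℝ) (hf : ContDiffAt ℝ 4 f (g x)) (hg : ContDiffAt ℝ 4 g x) :
    D 4 (f ∘ g) x = D 4 f (g x) * deriv g x ^ 4 + 6 * D 3 f (g x) * deriv g x ^ 2 * D 2 g x
      + 3 * D 2 f (g x) * D 2 g x ^ 2 + 4 * D 2 f (g x) * deriv g x * D 3 g x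
      + deriv f (g x) * D 4 g x := by
  have e1 : ∀ᶠ y in 𝓝 x, ContDiffAt ℝ 4 g y := hg.eventually (by simp)
  have e2 : ∀ᶠ y in 𝓝 x, ContDiffAt ℝ 4 f (g y) :=
    hg.continuousAt.eventually (hf.eventually (by simp))
  have e3 : iteratedDeriv 3 (f ∘ g) =ᶠ[𝓝 x] fun y =>
      D 3 f (g y) * D 1 g y ^ 3 + 3 * D 2 f (g y) * D 2 g y * D 1 g y +
        D 1 f (g y) * D 3 g y := by
    filter_upwards [e1, e2] with y h1 h2
    rw [iteratedDeriv_comp_three (h2.of_le (by norm_num)) (h1.of_le (by norm_num))]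
    simp only [D, iteratedDeriv_one]
  have g0 : HasDerivAt g (D 1 g x) x := by
    have := hasDerivAt_D hg 0 (by norm_num)
    simpa only [D, iteratedDeriv_zero] using this
  have g1 := hasDerivAt_D hg 1 (by norm_num)
  have g2 := hasDerivAt_D hg 2 (by norm_num)
  have g3 := hasDerivAt_D hg 3 (by norm_num)
  have f1 := (hasDerivAt_D hf 1 (by norm_num)).comp x g0
  have f2 := (hasDerivAt_D hf 2 (by norm_num)).comp x g0
  have f3 := (hasDerivAt_D hf 3 (by norm_num)).comp x g0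
  have H := ((f3.mul (g1.pow 3)).add (((f2.const_mul 3).mul g2).mul g1)).add (f1.mul g3)
  have H' : HasDerivAt (fun y => D 3 f (g y) * D 1 g y ^ 3 + 3 * D 2 f (g y) * D 2 g y * D 1 g y +
        D 1 f (g y) * D 3 g y) _ x := H
  have : D 4 (f ∘ g) x = deriv (iteratedDeriv 3 (f ∘ g)) x := by
    rw [← iteratedDeriv_succ]
  rw [this, e3.deriv_eq, H'.deriv]
  simp only [D, iteratedDeriv_one, Function.comp, Pi.mul_apply, Pi.pow_apply]
  norm_num
  ring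

theorem good_mono (f : Pm) (hf : Good f) : StrictMono f := strictMono_of_deriv_pos hf.2

theorem good_mul (f g : Pm) (hf : Good f) (hg : Good g) : Good (f * g) := by
  refine ⟨?_, fun x => ?_⟩
  · rw [Equiv.Perm.coe_mul]; exact hf.1.comp hg.1
  · rw [Equiv.Perm.coe_mul, deriv_comp x (hf.1.differentiable (by norm_num) _)
      (hg.1.differentiable (by norm_num) _)]
    exact mul_pos (hf.2 _) (hg.2 _)

theorem comp_inv (f : Pm) : (⇑f⁻¹) ∘ ⇑f = id := by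
  ext x; simp

theorem good_inv (f : Pm) (hf : Good f) : Good f⁻¹ := by
  let e : ℝ ≃o ℝ := (good_mono f hf).orderIsoOfSurjective f f.surjective
  let h : ℝ ≃ₜ ℝ := e.toHomeomorph
  have hh : (h : ℝ → ℝ) = f := rfl
  have hs : (h.symm : ℝ → ℝ) = ⇑f⁻¹ := by
    ext y
    apply f.injective
    have : h (h.symm y) = y := h.apply_symm_apply y
    rw [hh] at this
    rw [this]; simp
  have hd : Differentiable ℝ f := hf.1.differentiable (by norm_num)
  have hc : ContDiff ℝ 4 (⇑f⁻¹) := by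
    rw [← hs]
    exact h.contDiff_symm_deriv (f' := deriv f) (fun x => (hf.2 x).ne')
      (fun x => (hd x).hasDerivAt) hf.1
  refine ⟨hc, fun y => ?_⟩
  obtain ⟨x, rfl⟩ := f.surjective y
  have h1 : deriv ((⇑f⁻¹) ∘ ⇑f) x = deriv (⇑f⁻¹) (f x) * deriv f x :=
    deriv_comp x (hc.differentiable (by norm_num) _) (hd x)
  rw [comp_inv, deriv_id] at h1
  by_contra hneg
  push Not at hneg
  have := mul_nonpos_of_nonpos_of_nonneg hneg (hf.2 x).le
  linarith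

theorem D_succ_of_deriv_const (f : ℝ → ℝ) (c : ℝ) (h : deriv f = fun _ => c) (k : ℕ) (x : ℝ) :
    D (k + 2) f x = 0 := by
  have : iteratedDeriv (k + 2) f = iteratedDeriv (k + 1) (deriv f) := iteratedDeriv_succ'
  unfold D
  rw [this, h, iteratedDeriv_const]
  simp

theorem bd_of_deriv_one (f : ℝ → ℝ) (h : deriv f = fun _ => 1) (x s : ℝ) : Bd f x s 0 := by
  refine ⟨by simp [h], ?_, ?_, ?_⟩
  · rw [D_succ_of_deriv_const f 1 h 0]; simp
  · rw [D_succ_of_deriv_const f 1 h 1]; simp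
  · rw [D_succ_of_deriv_const f 1 h 2]; simp

theorem good_tr (c : ℝ) : Good (tr c) ∧ ∀ x s : ℝ, Bd (tr c) x s 0 := by
  have e : ⇑(tr c) = fun x => x + c := rfl
  have hd : deriv (tr c) = fun _ => 1 := by
    rw [e]; ext x; simp
  refine ⟨⟨?_, fun x => by rw [hd]; norm_num⟩, fun x s => bd_of_deriv_one _ hd x s⟩
  rw [e]; fun_prop

theorem good_one : Good 1 ∧ ∀ x s : ℝ, Bd (⇑(1 : Pm)) x s 0 := by
  have e : (1 : Pm) = tr 0 := by ext x; simp
  rw [e]; exact good_tr 0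

theorem exists_perm (F : ℝ → ℝ) (hF : ContDiff ℝ 4 F) (h : ∀ x, 1 / 2 ≤ deriv F x) :
    ∃ f : Pm, ⇑f = F ∧ Good f := by
  have hd : Differentiable ℝ F := hF.differentiable (by norm_num)
  have hpos : ∀ x, 0 < deriv F x := fun x => lt_of_lt_of_le (by norm_num) (h x)
  have hm : StrictMono F := strictMono_of_deriv_pos hpos
  have key := mul_sub_le_image_sub_of_le_deriv hd h
  have t1 : Tendsto F atTop atTop := by
    have : Tendsto (fun y : ℝ => F 0 + 1 / 2 * y) atTop atTop :=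
      tendsto_atTop_add_const_left _ _ (tendsto_id.const_mul_atTop (by norm_num))
    refine tendsto_atTop_mono' _ ?_ this
    filter_upwards [eventually_ge_atTop 0] with y hy
    have := key hy
    linarith
  have t2 : Tendsto F atBot atBot := by
    have : Tendsto (fun y : ℝ => F 0 + 1 / 2 * y) atBot atBot :=
      tendsto_atBot_add_const_left _ _ (tendsto_id.const_mul_atBot (by norm_num))
    refine tendsto_atBot_mono' _ ?_ this
    filter_upwards [eventually_le_atBot 0] with y hy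
    have := key hy
    linarith
  have hs : Function.Surjective F := hF.continuous.surjective t1 t2
  exact ⟨Equiv.ofBijective F ⟨hm.injective, hs⟩, rfl, hF, hpos⟩

theorem abs_mul_le' {a b A B : ℝ} (ha : |a| ≤ A) (hb : |b| ≤ B) : |a * b| ≤ A * B := by
  rw [abs_mul]
  exact mul_le_mul ha hb (abs_nonneg _) ((abs_nonneg _).trans ha)

theorem scale {a η t : ℝ} (ht : 0 < t) : |a| ≤ η / t ↔ |a * t| ≤ η := by
  rw [le_div_iff₀ ht, abs_mul, abs_of_pos ht]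

theorem real_comp {a1 a2 a3 a4 b1 b2 b3 b4 p q : ℝ} (hq : q ≤ 1)
    (ha1 : |a1 - 1| ≤ p) (ha2 : |a2| ≤ p) (ha3 : |a3| ≤ p) (ha4 : |a4| ≤ p)
    (hb1 : |b1 - 1| ≤ q) (hb2 : |b2| ≤ q) (hb3 : |b3| ≤ q) (hb4 : |b4| ≤ q) :
    |a1 * b1 - 1| ≤ q + 60 * p ∧ |a2 * b1 ^ 2 + a1 * b2| ≤ q + 60 * p ∧
    |a3 * b1 ^ 3 + 3 * a2 * b2 * b1 + a1 * b3| ≤ q + 60 * p ∧
    |a4 * b1 ^ 4 + 6 * a3 * b1 ^ 2 * b2 + 3 * a2 * b2 ^ 2 + 4 * a2 * b1 * b3 + a1 * b4|
      ≤ q + 60 * p := by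
  have hp : 0 ≤ p := (abs_nonneg _).trans ha1
  have c1 : |b1| ≤ 2 := by
    rw [abs_le] at hb1 ⊢; constructor <;> linarith [hb1.1, hb1.2]
  have c2 : |b2| ≤ 1 := hb2.trans hq
  have c3 : |b3| ≤ 1 := hb3.trans hq
  have c4 : |b4| ≤ 1 := hb4.trans hq
  have d2 : |b1 * b1| ≤ 2 * 2 := abs_mul_le' c1 c1
  have d3 : |b1 * b1 * b1| ≤ 2 * 2 * 2 := abs_mul_le' d2 c1
  have d4 : |b1 * b1 * b1 * b1| ≤ 2 * 2 * 2 * 2 := abs_mul_le' d3 c1
  have t1 := abs_le.1 (abs_mul_le' ha1 c1)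
  have t2 := abs_le.1 (abs_mul_le' ha2 d2)
  have t3 := abs_le.1 (abs_mul_le' ha1 c2)
  have t4 := abs_le.1 (abs_mul_le' ha3 d3)
  have t5 := abs_le.1 (abs_mul_le' ha2 (abs_mul_le' c2 c1))
  have t6 := abs_le.1 (abs_mul_le' ha1 c3)
  have t7 := abs_le.1 (abs_mul_le' ha4 d4)
  have t8 := abs_le.1 (abs_mul_le' ha3 (abs_mul_le' d2 c2))
  have t9 := abs_le.1 (abs_mul_le' ha2 (abs_mul_le' c2 c2))
  have t10 := abs_le.1 (abs_mul_le' ha2 (abs_mul_le' c1 c3))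
  have t11 := abs_le.1 (abs_mul_le' ha1 c4)
  have u1 := abs_le.1 hb1
  have u2 := abs_le.1 hb2
  have u3 := abs_le.1 hb3
  have u4 := abs_le.1 hb4
  refine ⟨abs_le.2 ⟨?_, ?_⟩, abs_le.2 ⟨?_, ?_⟩, abs_le.2 ⟨?_, ?_⟩, abs_le.2 ⟨?_, ?_⟩⟩ <;>
    linarith [t1.1, t1.2, t2.1, t2.2, t3.1, t3.2, t4.1, t4.2, t5.1, t5.2, t6.1, t6.2, t7.1,
      t7.2, t8.1, t8.2, t9.1, t9.2, t10.1, t10.2, t11.1, t11.2, u1.1, u1.2, u2.1, u2.2, u3.1,
      u3.2, u4.1, u4.2]

theorem bd_comp (f g : ℝ → ℝ) (x s ηf ηg : ℝ) (hf : ContDiffAt ℝ 4 f (g x))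
    (hg : ContDiffAt ℝ 4 g x) (hs : 0 < s) (hq : ηg ≤ 1) (bg : Bd g x s ηg)
    (bf : Bd f (g x) s ηf) : Bd (f ∘ g) x s (ηg + 60 * ηf) := by
  obtain ⟨g1, g2, g3, g4⟩ := bg
  obtain ⟨f1, f2, f3, f4⟩ := bf
  have s2 : 0 < s ^ 2 := by positivity
  have s3 : 0 < s ^ 3 := by positivity
  rw [scale hs] at g2 f2
  rw [scale s2] at g3 f3
  rw [scale s3] at g4 f4
  obtain ⟨r1, r2, r3, r4⟩ := real_comp hq f1 f2 f3 f4 g1 g2 g3 g4
  refine ⟨?_, ?_, ?_, ?_⟩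
  · rw [deriv_comp x (hf.differentiableAt (by norm_num)) (hg.differentiableAt (by norm_num))]
    exact r1
  · rw [scale hs]
    unfold D at *
    rw [iteratedDeriv_comp_two (hf.of_le (by norm_num)) (hg.of_le (by norm_num))]
    convert r2 using 2; ring
  · rw [scale s2]
    unfold D at *
    rw [iteratedDeriv_comp_three (hf.of_le (by norm_num)) (hg.of_le (by norm_num))]
    convert r3 using 2; ring
  · rw [scale s3, chain4 f g x hf hg]
    convert r4 using 2; ring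

theorem solve_le {c w r K : ℝ} (hw : 9 / 10 ≤ w) (h : c * w + r = 0) (hr : |r| ≤ K) :
    |c| ≤ 10 / 9 * K := by
  have h1 : |c| * w = |r| := by
    have : c * w = -r := by linarith
    rw [← abs_neg r, ← this, abs_mul, abs_of_nonneg (by linarith : (0 : ℝ) ≤ w)]
  have := abs_nonneg c
  nlinarith

theorem real_inv {a1 a2 a3 a4 c1 c2 c3 c4 p : ℝ} (hp : p ≤ 1 / 100)
    (ha1 : |a1 - 1| ≤ p) (ha2 : |a2| ≤ p) (ha3 : |a3| ≤ p) (ha4 : |a4| ≤ p)
    (e1 : c1 * a1 = 1) (e2 : c2 * a1 ^ 2 + c1 * a2 = 0)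
    (e3 : c3 * a1 ^ 3 + (3 * c2 * a2 * a1 + c1 * a3) = 0)
    (e4 : c4 * a1 ^ 4 + (6 * c3 * a1 ^ 2 * a2 + 3 * c2 * a2 ^ 2 + 4 * c2 * a1 * a3 + c1 * a4)
      = 0) :
    |c1 - 1| ≤ 60 * p ∧ |c2| ≤ 60 * p ∧ |c3| ≤ 60 * p ∧ |c4| ≤ 60 * p := by
  have hp0 : 0 ≤ p := (abs_nonneg _).trans ha1
  have l1 : 99 / 100 ≤ a1 := by linarith [(abs_le.1 ha1).1]
  have l2 : 98 / 100 ≤ a1 ^ 2 := by nlinarith
  have l3 : 97 / 100 ≤ a1 ^ 3 := by nlinarith
  have l4 : 96 / 100 ≤ a1 ^ 4 := by nlinarith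
  have b1 : |a1| ≤ 2 := by
    rw [abs_le] at ha1 ⊢; constructor <;> linarith [ha1.1, ha1.2]
  have b2 : |a2| ≤ 1 / 100 := ha2.trans hp
  have b3 : |a3| ≤ 1 / 100 := ha3.trans hp
  have k1 : |c1 - 1| ≤ 10 / 9 * p :=
    solve_le (w := a1) (r := a1 - 1) (by linarith) (by linarith) ha1
  have k1' : |c1| ≤ 2 := by
    rw [abs_le] at k1 ⊢; constructor <;> linarith [k1.1, k1.2]
  have k2 : |c2| ≤ 10 / 9 * (2 * p) :=
    solve_le (by linarith) e2 (abs_mul_le' k1' ha2)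
  have k3 : |c3| ≤ 10 / 9 * (3 * p) := by
    refine solve_le (by linarith) e3 ?_
    have t1 := abs_le.1 (abs_mul_le' k2 (abs_mul_le' b2 b1))
    have t2 := abs_le.1 (abs_mul_le' k1' ha3)
    refine abs_le.2 ⟨?_, ?_⟩ <;> linarith [t1.1, t1.2, t2.1, t2.2]
  have k4 : |c4| ≤ 10 / 9 * (4 * p) := by
    refine solve_le (by linarith) e4 ?_
    have t1 := abs_le.1 (abs_mul_le' k3 (abs_mul_le' (abs_mul_le' b1 b1) b2))
    have t2 := abs_le.1 (abs_mul_le' k2 (abs_mul_le' b2 b2))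
    have t3 := abs_le.1 (abs_mul_le' k2 (abs_mul_le' b1 b3))
    have t4 := abs_le.1 (abs_mul_le' k1' ha4)
    refine abs_le.2 ⟨?_, ?_⟩ <;> linarith [t1.1, t1.2, t2.1, t2.2, t3.1, t3.2, t4.1, t4.2]
  exact ⟨by linarith, by linarith, by linarith, by linarith⟩

theorem bd_inv (f : Pm) (x s η : ℝ) (hf : Good f) (hs : 0 < s) (hη : η ≤ 1 / 100)
    (bf : Bd f x s η) : Bd (⇑f⁻¹) (f x) s (60 * η) := by
  obtain ⟨f1, f2, f3, f4⟩ := bf
  have s2 : 0 < s ^ 2 := by positivity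
  have s3 : 0 < s ^ 3 := by positivity
  rw [scale hs] at f2
  rw [scale s2] at f3
  rw [scale s3] at f4
  have hi : ContDiffAt ℝ 4 (⇑f⁻¹) (f x) := (good_inv f hf).1.contDiffAt
  have hx : ContDiffAt ℝ 4 f x := hf.1.contDiffAt
  have hid : deriv (id : ℝ → ℝ) = fun _ => 1 := by ext y; simp
  have e1 : deriv ((⇑f⁻¹) ∘ ⇑f) x = deriv (⇑f⁻¹) (f x) * deriv f x :=
    deriv_comp x (hi.differentiableAt (by norm_num)) (hx.differentiableAt (by norm_num))
  have e2 := iteratedDeriv_comp_two (hi.of_le (by norm_num : (2 : WithTop ℕ∞) ≤ 4))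
    (hx.of_le (by norm_num : (2 : WithTop ℕ∞) ≤ 4))
  have e3 := iteratedDeriv_comp_three (hi.of_le (by norm_num : (3 : WithTop ℕ∞) ≤ 4))
    (hx.of_le (by norm_num : (3 : WithTop ℕ∞) ≤ 4))
  have e4 := chain4 _ _ x hi hx
  rw [comp_inv] at e1 e2 e3 e4
  rw [deriv_id] at e1
  have z2 : iteratedDeriv 2 (id : ℝ → ℝ) x = 0 := D_succ_of_deriv_const id 1 hid 0 x
  have z3 : iteratedDeriv 3 (id : ℝ → ℝ) x = 0 := D_succ_of_deriv_const id 1 hid 1 x
  have z4 : D 4 (id : ℝ → ℝ) x = 0 := D_succ_of_deriv_const id 1 hid 2 x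
  rw [z2] at e2
  rw [z3] at e3
  rw [z4] at e4
  unfold D at *
  obtain ⟨r1, r2, r3, r4⟩ := real_inv (c1 := deriv (⇑f⁻¹) (f x))
    (c2 := iteratedDeriv 2 (⇑f⁻¹) (f x) * s) (c3 := iteratedDeriv 3 (⇑f⁻¹) (f x) * s ^ 2)
    (c4 := iteratedDeriv 4 (⇑f⁻¹) (f x) * s ^ 3) hη f1 f2 f3 f4 e1.symm
    (by linear_combination (-s) * e2) (by linear_combination (-s ^ 2) * e3)
    (by linear_combination (-s ^ 3) * e4)
  exact ⟨r1, (scale hs).2 r2, (scale s2).2 r3, (scale s3).2 r4⟩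

theorem bd_prod (L : List Pm) (s η : ℝ) (hs : 0 < s) (hη : 0 ≤ η)
    (hL : ∀ f ∈ L, Good f ∧ ∀ x, Bd f x s η) (h : 60 * L.length * η ≤ 1) :
    Good L.prod ∧ ∀ x, Bd (⇑L.prod) x s (60 * L.length * η) := by
  induction L with
  | nil =>
    simp only [List.prod_nil, List.length_nil, Nat.cast_zero, mul_zero, zero_mul]
    exact ⟨good_one.1, fun x => good_one.2 x s⟩
  | cons f L ih =>
    have hf := hL f List.mem_cons_self
    have hlen : ((f :: L).length : ℝ) = L.length + 1 := by simp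
    rw [hlen] at h ⊢
    have h' : 60 * L.length * η ≤ 1 := by nlinarith
    obtain ⟨g1, g2⟩ := ih (fun g hg => hL g (List.mem_cons_of_mem _ hg)) h'
    rw [List.prod_cons]
    refine ⟨good_mul _ _ hf.1 g1, fun x => ?_⟩
    rw [Equiv.Perm.coe_mul]
    have := bd_comp f L.prod x s η _ hf.1.1.contDiffAt g1.1.contDiffAt hs h' (g2 x) (hf.2 _)
    convert this using 1; ring

end H724

theorem tool : ToolStmt :=
  ⟨H724.good_mul, H724.good_inv, H724.good_mono, H724.good_tr, H724.exists_perm, H724.chain4,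
    H724.bd_comp, H724.bd_inv, H724.bd_prod⟩

end Pool.Agent.H113Z.Dist
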